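import Pool.Agent.W_MP_a3c811_h79.Lap.Sl2

/-! `f ^ j N ^ j x = 0` implies `N ^ j x = 0` for an `sl2`-triple. -/

noncomputable section

namespace Pool.Agent.H79L

open Module

universe v w

variable {K : Type v} [Field K] [CharZero K] {E : Type w} [AddCommGroup E] [Module K E]
  {N f : Module.End K E} {s : ℤ → Module.End K E} {P : Finset ℤ}

theorem Sl.inj_pow (h : Sl N f s P) (i : ℕ) : ∀ k ≤ i, ∀ x : E, s (-(i : ℤ)) x = x →
    (f ^ k) ((N ^ k) x) = 0 → x = 0 := by
  intro k
  induction k with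
  | zero => intro _ x _ hx; simpa using hx
  | succ k ih =>
    intro hk x hx hNx
    have h1 := h.f_Npow hx k
    rw [pow_succ f k, Module.End.mul_apply, h1] at hNx
    have hy : s (-(i : ℤ)) (N (f x)) = N (f x) := by
      have := h.mem_N (h.mem_f hx)
      rwa [sub_add_cancel] at this
    have h2 := ih (by omega) _ (by rw [map_sub, map_smul, hy, hx]) hNx
    by_contra hx0
    have h3 := sub_eq_zero.1 h2
    obtain ⟨r, hr⟩ := h.eig_nat (-(i : ℤ)) (by omega) x hx0 hx _ h3
    have h4 : ((k + 1) * (-(i : ℤ) + k) : ℤ) = (r : ℤ) := by exact_mod_cast hr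
    have h5 : ((k : ℤ) + 1) * (-(i : ℤ) + k) < 0 :=
      mul_neg_of_pos_of_neg (by omega) (by omega)
    omega

theorem Sl.Npow_s (h : Sl N f s P) (j : ℕ) (p : ℤ) : N ^ j * s p = s (p + 2 * j) * N ^ j := by
  induction j with
  | zero => simp
  | succ j ih =>
    rw [pow_succ', mul_assoc, ih, ← mul_assoc, h.Ns, mul_assoc]
    congr 2
    push_cast
    ring

theorem Sl.fpow_s (h : Sl N f s P) (j : ℕ) (p : ℤ) : f ^ j * s p = s (p - 2 * j) * f ^ j := by
  induction j with
  | zero => simp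
  | succ j ih =>
    rw [pow_succ', mul_assoc, ih, ← mul_assoc, h.fs, mul_assoc]
    congr 2
    push_cast
    ring

/-- `f ^ j N ^ j x = 0` implies `N ^ j x = 0`. -/
theorem Sl.ker_pow (h : Sl N f s P) (j : ℕ) {x : E} (hx : (f ^ j) ((N ^ j) x) = 0) :
    (N ^ j) x = 0 := by
  have hs : ∀ p, s p (s p x) = s p x := fun p => LinearMap.congr_fun (h.idem p) x
  have h0 : ∀ p, (f ^ j) ((N ^ j) (s p x)) = 0 := by
    intro p
    have h1 : f ^ j * N ^ j * s p = s p * (f ^ j * N ^ j) := by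
      rw [mul_assoc, h.Npow_s, ← mul_assoc, h.fpow_s, add_sub_cancel_right, mul_assoc]
    have h2 := LinearMap.congr_fun h1 x
    simp only [Module.End.mul_apply] at h2
    rw [h2, hx, map_zero]
  have key : ∀ p, (N ^ j) (s p x) = 0 := by
    intro p
    by_cases hp : p + j ≤ 0
    · obtain ⟨i, hi⟩ := Int.eq_ofNat_of_zero_le (show 0 ≤ -p by omega)
      have hp' : p = -(i : ℤ) := by omega
      have h3 := h.inj_pow i j (by omega) (s p x) (by rw [← hp']; exact hs p) (h0 p)
      rw [h3, map_zero]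
    · obtain ⟨i, hi⟩ := Int.eq_ofNat_of_zero_le (show 0 ≤ p + 2 * j by omega)
      refine h.symm.inj i j (by omega) _ ?_ (h0 p)
      have h3 := h.mem_Npow (hs p) j
      simp only [neg_neg]
      rw [← hi]
      exact h3
  have h1 : x = ∑ p ∈ P, s p x := by
    rw [← LinearMap.sum_apply, h.sum]; rfl
  rw [h1, map_sum]
  exact Finset.sum_eq_zero fun p _ => key p

theorem Sl.ker_pow' (h : Sl N f s P) (j : ℕ) {x : E} (hx : (N ^ j) ((f ^ j) x) = 0) :
    (f ^ j) x = 0 := h.symm.ker_pow j hx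

end Pool.Agent.H79L
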